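import Mathlib

set_option autoImplicit false

namespace Pool.Agent.H69.OkunevU

universe u

open Set Topology Filter

/-- The unit interval as a type. -/
abbrev I01 : Type := Set.Icc (0:ℝ) 1

/-- A countable network modulo a compact cover of the continuous functions yields a countable
family of closed subsets of the cube which separates the continuous functions from the rest. -/
lemma exists_sep {X : Type u} [TopologicalSpace X]
    (H : ∃ 𝓕 : Set (Set {f : X → Set.Icc (0:ℝ) 1 // Continuous f}), 𝓕.Countable ∧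
        ∀ g : {f : X → Set.Icc (0:ℝ) 1 // Continuous f},
          ∃ C : Set {f : X → Set.Icc (0:ℝ) 1 // Continuous f},
            IsCompact C ∧ g ∈ C ∧
              ∀ U : Set {f : X → Set.Icc (0:ℝ) 1 // Continuous f},
                IsOpen U → C ⊆ U → ∃ F ∈ 𝓕, C ⊆ F ∧ F ⊆ U) :
    ∃ K : ℕ → Set (X → I01), (∀ n, IsClosed (K n)) ∧
      ∀ f : X → I01, Continuous f →
        ∀ φ : X → I01, (∀ n, f ∈ K n → φ ∈ K n) → Continuous φ := by
  obtain ⟨𝓕, hc, hF⟩ := H
  let 𝓚 : Set (Set (X → I01)) :=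
    insert Set.univ ((fun F : Set {f : X → Set.Icc (0:ℝ) 1 // Continuous f} =>
      closure (Subtype.val '' F)) '' 𝓕)
  have hK : 𝓚.Countable := (hc.image _).insert _
  obtain ⟨K, hKr⟩ := hK.exists_eq_range ⟨Set.univ, Set.mem_insert _ _⟩
  refine ⟨K, ?_, ?_⟩
  · intro n
    have hn : K n ∈ 𝓚 := hKr ▸ Set.mem_range_self n
    rcases hn with h | ⟨F, _, h⟩
    · rw [h]; exact isClosed_univ
    · rw [← h]; exact isClosed_closure
  · intro f hf φ hφ
    obtain ⟨C, hC, hfC, hU⟩ := hF ⟨f, hf⟩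
    by_contra hcont
    have hC' : IsCompact (Subtype.val '' C) := hC.image continuous_subtype_val
    have hφC : φ ∉ (Subtype.val '' C) := by
      rintro ⟨g, _, rfl⟩
      exact hcont g.2
    obtain ⟨U, V, hUo, hVo, hCU, hφV, hUV⟩ := hC'.separation_of_notMem hφC
    obtain ⟨F, hF𝓕, hCF, hFU⟩ := hU (Subtype.val ⁻¹' U) (hUo.preimage continuous_subtype_val)
      (fun g hg => hCU ⟨g, hg, rfl⟩)
    have hmem : closure (Subtype.val '' F) ∈ 𝓚 := Or.inr ⟨F, hF𝓕, rfl⟩
    rw [hKr] at hmem
    obtain ⟨n, hn⟩ := hmem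
    have h1 : f ∈ K n := by
      rw [hn]
      exact subset_closure ⟨⟨f, hf⟩, hCF hfC, rfl⟩
    have h2 : φ ∈ K n := hφ n h1
    rw [hn] at h2
    rw [mem_closure_iff] at h2
    obtain ⟨ψ, hψV, ⟨g, hgF, rfl⟩⟩ := h2 V hVo hφV
    exact Set.disjoint_left.1 hUV (hFU hgF) hψV

/-- Existence of a generic function with respect to the sets where `|h|` is large. -/
lemma exists_generic {X : Type u} [TopologicalSpace X] (K : ℕ → Set (X → I01))
    (hK : ∀ n, IsClosed (K n)) (h : X → ℝ) (hh : Continuous h) :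
    ∃ f : X → I01, Continuous f ∧ ∀ n, f ∈ K n → ∃ m : ℕ,
      ∀ g : X → I01, Continuous g → (∀ x, |h x| ≤ m → g x = f x) → g ∈ K n := by
  classical
  have step : ∀ (n : ℕ) (s : {f : X → I01 // Continuous f} × ℕ),
      ∃ s' : {f : X → I01 // Continuous f} × ℕ, s.2 < s'.2 ∧
        (∀ x, |h x| ≤ s.2 → s'.1.1 x = s.1.1 x) ∧
        ((∀ φ : X → I01, (∀ x, |h x| ≤ s'.2 → φ x = s'.1.1 x) → φ ∉ K n) ∨
         (∀ g : X → I01, Continuous g → (∀ x, |h x| ≤ s.2 → g x = s.1.1 x) → g ∈ K n)) := by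
    rintro n ⟨⟨f, hf⟩, m⟩
    by_cases hall : ∀ g : X → I01, Continuous g → (∀ x, |h x| ≤ m → g x = f x) → g ∈ K n
    · exact ⟨⟨⟨f, hf⟩, m + 1⟩, Nat.lt_succ_self m, fun x _ => rfl, Or.inr hall⟩
    · push Not at hall
      obtain ⟨g, hg, hgf, hgK⟩ := hall
      have hopen : IsOpen (K n)ᶜ := (hK n).isOpen_compl
      rw [isOpen_pi_iff] at hopen
      obtain ⟨A, u, hu, hsub⟩ := hopen g hgK
      obtain ⟨M, hM⟩ : ∃ M : ℕ, ∀ a ∈ A, |h a| ≤ M := by
        refine ⟨A.sup (fun a => ⌈|h a|⌉₊), fun a ha => ?_⟩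
        exact (Nat.le_ceil _).trans (by exact_mod_cast Finset.le_sup (f := fun a => ⌈|h a|⌉₊) ha)
      refine ⟨⟨⟨g, hg⟩, max (m + 1) M⟩, ?_, hgf, Or.inl ?_⟩
      · exact lt_of_lt_of_le (Nat.lt_succ_self m) (le_max_left _ _)
      · intro φ hφ
        apply hsub
        intro a ha
        have ha' : |h a| ≤ ((max (m + 1) M : ℕ) : ℝ) :=
          (hM a ha).trans (by exact_mod_cast le_max_right _ _)
        have := hφ a ha'
        rw [this]
        exact (hu a ha).2
  choose F hF1 hF2 hF3 using step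
  let s0 : {f : X → I01 // Continuous f} × ℕ :=
    ⟨⟨fun _ => ⟨0, by norm_num, by norm_num⟩, continuous_const⟩, 0⟩
  let σ : ℕ → {f : X → I01 // Continuous f} × ℕ := fun n => Nat.rec s0 (fun n s => F n s) n
  have hσ : ∀ n, σ (n + 1) = F n (σ n) := fun n => rfl
  have hmono : ∀ n, (σ n).2 < (σ (n + 1)).2 := fun n => by rw [hσ]; exact hF1 n (σ n)
  have hsm : StrictMono (fun n => (σ n).2) := strictMono_nat_of_lt_succ hmono
  have hge : ∀ n, n ≤ (σ n).2 := fun n => hsm.id_le n
  have hagree : ∀ n k, n ≤ k → ∀ x, |h x| ≤ (σ n).2 → (σ k).1.1 x = (σ n).1.1 x := by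
    intro n k hnk
    induction k, hnk using Nat.le_induction with
    | base => intro x _; rfl
    | succ k hk ih =>
      intro x hx
      rw [← ih x hx, hσ]
      apply hF2
      exact hx.trans (by exact_mod_cast hsm.monotone hk)
  let f : X → I01 := fun x => (σ ⌈|h x|⌉₊).1.1 x
  have hf : ∀ n x, |h x| ≤ (σ n).2 → f x = (σ n).1.1 x := by
    intro n x hx
    have hx' : |h x| ≤ (σ ⌈|h x|⌉₊).2 :=
      (Nat.le_ceil _).trans (by exact_mod_cast hge _)
    rcases le_total n ⌈|h x|⌉₊ with hle | hle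
    · exact hagree n _ hle x hx
    · exact (hagree _ n hle x hx').symm
  refine ⟨f, ?_, ?_⟩
  · rw [continuous_iff_continuousAt]
    intro x
    have hx : |h x| < (σ (⌈|h x|⌉₊ + 1)).2 := by
      have h1 : |h x| ≤ ⌈|h x|⌉₊ := Nat.le_ceil _
      have h2 : ((⌈|h x|⌉₊ + 1 : ℕ) : ℝ) ≤ (σ (⌈|h x|⌉₊ + 1)).2 := by exact_mod_cast hge _
      push_cast at h2
      linarith
    have hev : ∀ᶠ y in 𝓝 x, |h y| < (σ (⌈|h x|⌉₊ + 1)).2 :=
      (hh.abs.continuousAt (x := x)).eventually (gt_mem_nhds hx)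
    have hcont : ContinuousAt (σ (⌈|h x|⌉₊ + 1)).1.1 x :=
      ((σ (⌈|h x|⌉₊ + 1)).1.2).continuousAt
    refine hcont.congr ?_
    filter_upwards [hev] with y hy
    exact (hf (⌈|h x|⌉₊ + 1) y hy.le).symm
  · intro n hfn
    have h3 := hF3 n (σ n)
    rcases h3 with h3 | h3
    · exfalso
      apply h3 f _ hfn
      intro x hx
      rw [← hσ] at hx
      rw [← hσ]
      exact hf (n + 1) x hx
    · refine ⟨(σ n).2, fun g hg hgf => h3 g hg ?_⟩
      intro x hx
      rw [hgf x hx, hf n x hx]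

/-- The set attached to a finite index set: non-isolated points `z` such that every member of
the corresponding intersection has a one-point modification at `z` leaving that intersection. -/
def G {X : Type u} [TopologicalSpace X] (K : ℕ → Set (X → I01)) (s : Finset ℕ) : Set X := by
  classical
  exact {z | ¬ IsOpen ({z} : Set X) ∧ ∀ g : X → I01, (∀ n ∈ s, g ∈ K n) →
    ∃ t : I01, ∃ n ∈ s, Function.update g z t ∉ K n}

/-- For a continuous function every non-isolated point lies in some `G K s` with `f ∈ K s`. -/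
lemma exists_mem_G {X : Type u} [TopologicalSpace X] (K : ℕ → Set (X → I01))
    (hK : ∀ n, IsClosed (K n))
    (hsep : ∀ f : X → I01, Continuous f →
        ∀ φ : X → I01, (∀ n, f ∈ K n → φ ∈ K n) → Continuous φ)
    (f : X → I01) (hf : Continuous f) (z : X) (hz : ¬ IsOpen ({z} : Set X)) :
    ∃ s : Finset ℕ, (∀ n ∈ s, f ∈ K n) ∧ z ∈ G K s := by
  classical
  by_contra hcon
  push Not at hcon
  -- the index sets
  let s : ℕ → Finset ℕ := fun n => (Finset.range n).filter (fun i => f ∈ K i)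
  have hs : ∀ n, ∀ i ∈ s n, f ∈ K i := fun n i hi => (Finset.mem_filter.1 hi).2
  have hex : ∀ n, ∃ g : X → I01, (∀ i ∈ s n, g ∈ K i) ∧
      ∀ t : I01, ∀ i ∈ s n, Function.update g z t ∈ K i := by
    intro n
    have h1 := hcon (s n) (hs n)
    by_contra h2
    apply h1
    refine ⟨hz, fun g hg => ?_⟩
    by_contra h3
    apply h2
    push Not at h3
    exact ⟨g, hg, h3⟩
  choose g hg hgt using hex
  let 𝒰 : Ultrafilter ℕ := hyperfilter ℕ
  obtain ⟨g0, -, hg0⟩ := (isCompact_univ (X := X → I01)).ultrafilter_le_nhds (𝒰.map g)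
    (by simp)
  have hg0' : Tendsto g 𝒰 (𝓝 g0) := hg0
  have hle : (𝒰 : Filter ℕ) ≤ atTop := by
    rw [← Nat.cofinite_eq_atTop]; exact hyperfilter_le_cofinite
  have hmem : ∀ t : I01, ∀ i, f ∈ K i → Function.update g0 z t ∈ K i := by
    intro t i hi
    have ht : Tendsto (fun n => Function.update (g n) z t) 𝒰 (𝓝 (Function.update g0 z t)) := by
      have hc : Continuous (fun g : X → I01 => Function.update g z t) :=
        continuous_id.update z continuous_const
      exact (hc.tendsto g0).comp hg0'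
    refine (hK i).mem_of_tendsto ht ?_
    have hev : ∀ᶠ n in (atTop : Filter ℕ), i < n := eventually_gt_atTop i
    filter_upwards [hle hev] with n hn
    exact hgt n t i (Finset.mem_filter.2 ⟨Finset.mem_range.2 hn, hi⟩)
  have hcont : ∀ t : I01, Continuous (Function.update g0 z t) := fun t =>
    hsep f hf _ (hmem t)
  let t0 : I01 := ⟨0, by norm_num, by norm_num⟩
  let t1 : I01 := ⟨1, by norm_num, by norm_num⟩
  have hne : t0 ≠ t1 := by
    intro h
    have := congrArg Subtype.val h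
    simp [t0, t1] at this
  apply hz
  have hopen := isOpen_ne_fun (hcont t0) (hcont t1)
  convert hopen using 1
  ext x
  simp only [mem_singleton_iff]
  constructor
  · rintro rfl
    simpa using hne
  · intro hx
    by_contra hxz
    apply hx
    rw [Function.update_of_ne hxz, Function.update_of_ne hxz]

/-- If `f` is generic for `h` then `h` is bounded on every `G K s` with `f ∈ K s`. -/
lemma bounded_on_G {X : Type u} [TopologicalSpace X] [T35Space X] (K : ℕ → Set (X → I01))
    (hK : ∀ n, IsClosed (K n)) (h : X → ℝ) (hh : Continuous h)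
    (f : X → I01) (hf : Continuous f)
    (hgen : ∀ n, f ∈ K n → ∃ m : ℕ,
      ∀ g : X → I01, Continuous g → (∀ x, |h x| ≤ m → g x = f x) → g ∈ K n)
    (s : Finset ℕ) (hs : ∀ n ∈ s, f ∈ K n) :
    ∃ M : ℝ, ∀ z ∈ G K s, |h z| ≤ M := by
  classical
  have hgen' : ∀ n ∈ s, ∃ m : ℕ,
      ∀ g : X → I01, Continuous g → (∀ x, |h x| ≤ m → g x = f x) → g ∈ K n :=
    fun n hn => hgen n (hs n hn)
  choose! m hm using hgen'
  let M : ℕ := s.sup m
  have hM : ∀ n ∈ s, m n ≤ M := fun n hn => Finset.le_sup hn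
  refine ⟨M, ?_⟩
  rintro z ⟨hz, hzG⟩
  by_contra hzM
  push Not at hzM
  obtain ⟨t, n, hn, ht⟩ := hzG f hs
  apply ht
  rw [← (hK n).closure_eq, mem_closure_iff]
  intro O hO hfO
  rw [isOpen_pi_iff] at hO
  obtain ⟨A, u, hu, hsub⟩ := hO _ hfO
  -- a closed set not containing z
  have hclosed : IsClosed ({x | |h x| ≤ M} ∪ ((A.erase z : Finset X) : Set X)) :=
    (isClosed_le hh.abs continuous_const).union (Finset.finite_toSet _).isClosed
  have hznot : z ∉ ({x | |h x| ≤ (M : ℝ)} ∪ ((A.erase z : Finset X) : Set X)) := by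
    rintro (h1 | h1)
    · exact absurd h1 (not_le.2 hzM)
    · simp at h1
  obtain ⟨v, hv, hvz, hv1⟩ := CompletelyRegularSpace.completely_regular z _ hclosed hznot
  let g : X → I01 := fun x => ⟨(1 - (v x : ℝ)) * t + (v x : ℝ) * f x, by
    have h1 := (v x).2.1
    have h2 := (v x).2.2
    have h3 := t.2.1
    have h4 := t.2.2
    have h5 := (f x).2.1
    have h6 := (f x).2.2
    constructor
    · have : 0 ≤ 1 - (v x : ℝ) := by linarith
      positivity
    · nlinarith⟩
  have hgc : Continuous g := by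
    apply Continuous.subtype_mk
    have h1 : Continuous (fun x => (v x : ℝ)) := continuous_subtype_val.comp hv
    have h2 : Continuous (fun x => (f x : ℝ)) := continuous_subtype_val.comp hf
    exact ((continuous_const.sub h1).mul continuous_const).add (h1.mul h2)
  have hgz : g z = t := by
    apply Subtype.ext
    simp [g, hvz]
  have hg1 : ∀ x ∈ ({x | |h x| ≤ (M : ℝ)} ∪ ((A.erase z : Finset X) : Set X)), g x = f x := by
    intro x hx
    apply Subtype.ext
    have := hv1 hx
    simp [g, this]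
  refine ⟨g, hsub ?_, ?_⟩
  · intro a ha
    by_cases haz : a = z
    · subst haz
      rw [hgz]
      simpa using (hu a ha).2
    · rw [hg1 a (Or.inr (by simp [haz]; exact ha))]
      have := (hu a ha).2
      rwa [Function.update_of_ne haz] at this
  · apply hm n hn g hgc
    intro x hx
    apply hg1
    left
    exact hx.trans (by exact_mod_cast hM n hn)

/-- Combination: a countable family of sets of non-isolated points such that each continuous
real function is bounded on enough members of it. -/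
lemma exists_family {X : Type u} [TopologicalSpace X] [T35Space X]
    (H : ∃ 𝓕 : Set (Set {f : X → Set.Icc (0:ℝ) 1 // Continuous f}), 𝓕.Countable ∧
        ∀ g : {f : X → Set.Icc (0:ℝ) 1 // Continuous f},
          ∃ C : Set {f : X → Set.Icc (0:ℝ) 1 // Continuous f},
            IsCompact C ∧ g ∈ C ∧
              ∀ U : Set {f : X → Set.Icc (0:ℝ) 1 // Continuous f},
                IsOpen U → C ⊆ U → ∃ F ∈ 𝓕, C ⊆ F ∧ F ⊆ U) :
    ∃ E : ℕ → Set X, ∀ h : X → ℝ, Continuous h → ∀ z : X, ¬ IsOpen ({z} : Set X) →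
      ∃ n, z ∈ E n ∧ ∃ M : ℝ, ∀ x ∈ E n, |h x| ≤ M := by
  obtain ⟨K, hK, hsep⟩ := exists_sep H
  obtain ⟨e, he⟩ := exists_surjective_nat (Finset ℕ)
  refine ⟨fun n => G K (e n), ?_⟩
  intro h hh z hz
  obtain ⟨f, hf, hgen⟩ := exists_generic K hK h hh
  obtain ⟨s, hs, hzs⟩ := exists_mem_G K hK hsep f hf z hz
  obtain ⟨n, rfl⟩ := he s
  exact ⟨n, hzs, bounded_on_G K hK h hh f hf hgen _ hs⟩

/-- The evaluation map of a space into the product of lines indexed by its real functions. -/
abbrev ev (X : Type u) [TopologicalSpace X] : X → (C(X, ℝ) → ℝ) := fun x f => f x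

lemma continuous_ev (X : Type u) [TopologicalSpace X] : Continuous (ev X) :=
  continuous_pi fun f => f.continuous

/-- A point of the closure of the non-isolated points in the realcompactification lies in the
closure of one member of each countable cover of the set of non-isolated points. -/
lemma exists_closure_of_cover {X : Type u} [TopologicalSpace X] (Y : Set X)
    (hY : Y = {x : X | ¬ IsOpen ({x} : Set X)}) (A : ℕ → Set X) (hA : ∀ y ∈ Y, ∃ n, y ∈ A n)
    (q : C(X, ℝ) → ℝ) (hq : q ∈ closure (ev X '' Y)) :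
    ∃ n, q ∈ closure (ev X '' A n) := by
  classical
  by_contra hcon
  push Not at hcon
  have hsep : ∀ n, ∃ w : (C(X, ℝ) → ℝ) → unitInterval, Continuous w ∧ w q = 0 ∧
      Set.EqOn w 1 (closure (ev X '' A n)) := fun n =>
    CompletelyRegularSpace.completely_regular q _ isClosed_closure (hcon n)
  choose w hw hwq hw1 using hsep
  let W : (C(X, ℝ) → ℝ) → ℝ := fun p => ∑' n : ℕ, (1/2 : ℝ)^n * (w n p : ℝ)
  have hsum : Summable (fun n : ℕ => (1/2 : ℝ)^n) := summable_geometric_two
  have hbound : ∀ (n : ℕ) (p : C(X, ℝ) → ℝ), ‖(1/2 : ℝ)^n * (w n p : ℝ)‖ ≤ (1/2 : ℝ)^n := by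
    intro n p
    rw [norm_mul, norm_pow]
    have h1 := (w n p).2.1
    have h2 := (w n p).2.2
    have h3 : ‖(w n p : ℝ)‖ ≤ 1 := by
      rw [Real.norm_eq_abs, abs_of_nonneg h1]; exact h2
    have h4 : ‖(1/2 : ℝ)‖ = 1/2 := by norm_num
    rw [h4]
    have h5 : (0:ℝ) ≤ (1/2)^n := by positivity
    nlinarith
  have hWc : Continuous W := by
    refine continuous_tsum (fun n => ?_) hsum hbound
    exact continuous_const.mul (continuous_subtype_val.comp (hw n))
  have hWq : W q = 0 := by
    simp [W, hwq]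
  have hWnn : ∀ p, 0 ≤ W p := fun p =>
    tsum_nonneg fun n => mul_nonneg (by positivity) (w n p).2.1
  have hWpos : ∀ y ∈ Y, 0 < W (ev X y) := by
    intro y hy
    obtain ⟨n, hn⟩ := hA y hy
    have h1 : w n (ev X y) = 1 := hw1 n (subset_closure ⟨y, hn, rfl⟩)
    have hs : Summable (fun n : ℕ => (1/2 : ℝ)^n * (w n (ev X y) : ℝ)) :=
      Summable.of_norm_bounded hsum (fun n => hbound n _)
    have h2 : (1/2 : ℝ)^n * (w n (ev X y) : ℝ) ≤ W (ev X y) :=
      hs.le_tsum n (fun m _ => mul_nonneg (by positivity) (w m (ev X y)).2.1)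
    rw [h1] at h2
    have h3 : (0:ℝ) < (1/2)^n := by positivity
    simp at h2
    have h4 : (0:ℝ) < (2^n)⁻¹ := by positivity
    linarith
  -- the zero set consists of isolated points, hence it is clopen
  let Z : Set X := {x | W (ev X x) = 0}
  have hZc : IsClosed Z := isClosed_eq (hWc.comp (continuous_ev X)) continuous_const
  have hZo : IsOpen Z := by
    rw [isOpen_iff_mem_nhds]
    intro x hx
    have hxY : x ∉ Y := fun h => (hWpos x h).ne' hx
    rw [hY] at hxY
    simp only [not_not, Set.mem_ofPred_eq] at hxY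
    exact Filter.mem_of_superset (hxY.mem_nhds rfl) (by rintro _ rfl; exact hx)
  let v : C(X, ℝ) := ⟨fun x => W (ev X x) + Z.indicator (fun _ => (1:ℝ)) x,
    (hWc.comp (continuous_ev X)).add
      ((continuous_const).indicator (by
        intro a ha
        have : frontier Z = ∅ := (isClopen_iff_frontier_eq_empty).1 ⟨hZc, hZo⟩
        rw [this] at ha
        exact absurd ha (Set.notMem_empty a)))⟩
  have hvpos : ∀ x, 0 < v x := by
    intro x
    by_cases hx : x ∈ Z
    · have h1 : v x = W (ev X x) + 1 := by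
        simp [v, hx]
      rw [h1]
      linarith [hWnn (ev X x)]
    · have h1 : v x = W (ev X x) := by
        simp [v, hx]
      rw [h1]
      exact lt_of_le_of_ne (hWnn _) (fun h => hx h.symm)
  let v' : C(X, ℝ) := ⟨fun x => (v x)⁻¹, v.continuous.inv₀ fun x => (hvpos x).ne'⟩
  have h1 : q v = W q := by
    have hcl : IsClosed {p : C(X, ℝ) → ℝ | p v = W p} := isClosed_eq (continuous_apply v) hWc
    refine closure_minimal ?_ hcl hq
    rintro _ ⟨y, hy, rfl⟩
    have hyZ : y ∉ Z := (hWpos y hy).ne'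
    simp [ev, v, hyZ]
  have h2 : q v * q v' = 1 := by
    have hcl : IsClosed {p : C(X, ℝ) → ℝ | p v * p v' = 1} :=
      isClosed_eq ((continuous_apply v).mul (continuous_apply v')) continuous_const
    refine closure_minimal ?_ hcl hq
    rintro _ ⟨y, hy, rfl⟩
    exact mul_inv_cancel₀ (hvpos y).ne'
  rw [h1, hWq, zero_mul] at h2
  exact zero_ne_one h2

/-- The closure of the non-isolated points in the realcompactification is Lindelof Sigma as soon
as there is a countable family as in `exists_family`. -/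
lemma sigma_of_family {X : Type u} [TopologicalSpace X] (E : ℕ → Set X)
    (hE : ∀ h : X → ℝ, Continuous h → ∀ z : X, ¬ IsOpen ({z} : Set X) →
      ∃ n, z ∈ E n ∧ ∃ M : ℝ, ∀ x ∈ E n, |h x| ≤ M) :
    (∃ 𝓕 : Set (Set ↥(closure ((fun x : X => fun f : C(X, ℝ) => f x) ''
                {x : X | ¬ IsOpen ({x} : Set X)}))), 𝓕.Countable ∧
        ∀ g : ↥(closure ((fun x : X => fun f : C(X, ℝ) => f x) ''
                {x : X | ¬ IsOpen ({x} : Set X)})),
          ∃ C : Set ↥(closure ((fun x : X => fun f : C(X, ℝ) => f x) ''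
                {x : X | ¬ IsOpen ({x} : Set X)})),
            IsCompact C ∧ g ∈ C ∧
              ∀ U : Set ↥(closure ((fun x : X => fun f : C(X, ℝ) => f x) ''
                {x : X | ¬ IsOpen ({x} : Set X)})),
                IsOpen U → C ⊆ U → ∃ F ∈ 𝓕, C ⊆ F ∧ F ⊆ U) := by
  classical
  set Y : Set X := {x : X | ¬ IsOpen ({x} : Set X)} with hYdef
  set T : Set (C(X, ℝ) → ℝ) := closure ((fun x : X => fun f : C(X, ℝ) => f x) '' Y) with hT
  have hTclosed : IsClosed T := isClosed_closure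
  -- the closed sets
  let L : ℕ → Set (C(X, ℝ) → ℝ) := fun n => closure (ev X '' E n)
  have hLc : ∀ n, IsClosed (L n) := fun n => isClosed_closure
  -- the countable family
  let N : Finset ℕ → Set T := fun s => {p | ∀ n ∈ s, p.1 ∈ L n}
  have hLbound : ∀ (q : T) (h : C(X, ℝ)), ∃ n, q.1 ∈ L n ∧ ∃ M : ℝ, ∀ p ∈ L n, |p h| ≤ M := by
    intro q h
    let A : ℕ → Set X := fun n => {x | x ∈ E n ∧ ∃ M : ℝ, ∀ y ∈ E n, |h y| ≤ M}
    have hA : ∀ y ∈ Y, ∃ n, y ∈ A n := by
      intro y hy
      obtain ⟨n, hn, hM⟩ := hE h h.continuous y hy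
      exact ⟨n, hn, hM⟩
    obtain ⟨n, hn⟩ := exists_closure_of_cover Y hYdef A hA q.1 q.2
    have hne : (A n).Nonempty := by
      by_contra hemp
      rw [Set.not_nonempty_iff_eq_empty] at hemp
      rw [hemp] at hn
      simp at hn
    obtain ⟨x0, hx0, M, hM⟩ := hne
    refine ⟨n, closure_mono (Set.image_mono (fun x hx => hx.1)) hn, M, ?_⟩
    intro p hp
    have hcl : IsClosed {p : C(X, ℝ) → ℝ | |p h| ≤ M} :=
      isClosed_le (continuous_apply h).abs continuous_const
    refine closure_minimal ?_ hcl hp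
    rintro _ ⟨y, hy, rfl⟩
    exact hM y hy
  refine ⟨Set.range N, Set.countable_range N, ?_⟩
  intro q
  let C : Set T := {p | ∀ n, q.1 ∈ L n → p.1 ∈ L n}
  have hCclosed : IsClosed C := by
    have : C = ⋂ n, ⋂ (_ : q.1 ∈ L n), {p : T | p.1 ∈ L n} := by
      ext p; simp [C]
    rw [this]
    exact isClosed_iInter fun n => isClosed_iInter fun _ => (hLc n).preimage continuous_subtype_val
  choose! k hk M hM using hLbound q
  have hCcomp : IsCompact C := by
    have hemb : IsClosedEmbedding (Subtype.val : T → (C(X, ℝ) → ℝ)) :=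
      hTclosed.isClosedEmbedding_subtypeVal
    rw [hemb.isInducing.isCompact_iff]
    have hbox : IsCompact (Set.univ.pi fun h : C(X, ℝ) => Set.Icc (-(M h)) (M h)) :=
      isCompact_univ_pi fun h => isCompact_Icc
    refine hbox.of_isClosed_subset (hemb.isClosedMap C hCclosed) ?_
    rintro _ ⟨p, hp, rfl⟩
    intro h _
    exact abs_le.1 (hM h p.1 (hp (k h) (hk h)))
  refine ⟨C, hCcomp, fun n hn => hn, ?_⟩
  intro U hU hCU
  -- find a finite set of indices
  by_contra hcon
  push Not at hcon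
  let s : ℕ → Finset ℕ := fun n => (Finset.range n).filter (fun i => q.1 ∈ L i)
  have hex : ∀ n, ∃ p : T, p ∈ N (s n) ∧ p ∉ U := by
    intro n
    have h1 := hcon (N (s n)) ⟨s n, rfl⟩ (by
      intro p hp i hi
      exact hp i (Finset.mem_filter.1 hi).2)
    exact Set.not_subset.1 h1
  choose x hxN hxU using hex
  let 𝒰 : Ultrafilter ℕ := hyperfilter ℕ
  have hle : (𝒰 : Filter ℕ) ≤ atTop := by
    rw [← Nat.cofinite_eq_atTop]; exact hyperfilter_le_cofinite
  have hxL : ∀ i, q.1 ∈ L i → ∀ᶠ n in (𝒰 : Filter ℕ), (x n).1 ∈ L i := by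
    intro i hi
    have hev : ∀ᶠ n in (atTop : Filter ℕ), i < n := eventually_gt_atTop i
    filter_upwards [hle hev] with n hn
    exact hxN n i (Finset.mem_filter.2 ⟨Finset.mem_range.2 hn, hi⟩)
  have hlim : ∀ h : C(X, ℝ), ∃ r : ℝ, Tendsto (fun n => (x n).1 h) 𝒰 (𝓝 r) := by
    intro h
    have hev : ∀ᶠ n in (𝒰 : Filter ℕ), (x n).1 h ∈ Set.Icc (-(M h)) (M h) := by
      filter_upwards [hxL (k h) (hk h)] with n hn
      exact abs_le.1 (hM h _ hn)
    obtain ⟨r, -, hr⟩ := (isCompact_Icc (a := -(M h)) (b := M h)).ultrafilter_le_nhds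
      (𝒰.map (fun n => (x n).1 h)) (by
        rw [le_principal_iff]
        exact hev)
    exact ⟨r, hr⟩
  choose r hr using hlim
  have hr' : Tendsto (fun n => (x n).1) 𝒰 (𝓝 r) := tendsto_pi_nhds.2 hr
  have hrT : r ∈ T := hTclosed.mem_of_tendsto hr' (Eventually.of_forall fun n => (x n).2)
  have hrC : (⟨r, hrT⟩ : T) ∈ C := by
    intro i hi
    exact (hLc i).mem_of_tendsto hr' (hxL i hi)
  have hxr : Tendsto x 𝒰 (𝓝 (⟨r, hrT⟩ : T)) := tendsto_subtype_rng.2 hr'
  have hnotU : (⟨r, hrT⟩ : T) ∈ Uᶜ :=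
    hU.isClosed_compl.mem_of_tendsto hxr (Eventually.of_forall fun n => hxU n)
  exact hnotU (hCU hrC)

end Pool.Agent.H69.OkunevU
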